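import Mathlib

set_option autoImplicit false

/-!
# The family `1/r (a_1, …, a_n)` of minimal log discrepancy `1 - 1/r`, `r = (s_n² + 3) / 4`

`s` is Sylvester's sequence `2, 3, 7, 43, …`.
-/

namespace Pool.Agent.Lib_helper15.MLD

open Finset

/-- Sylvester's sequence `2, 3, 7, 43, 1807, …` -/
def syl : ℕ → ℕ
  | 0 => 2
  | n + 1 => syl n * (syl n - 1) + 1

/-- `m_N = s_2 ⋯ s_{N+1}` (`1`-indexed), that is `(s_{N+2} - 1) / 2` -/
def mm (N : ℕ) : ℕ := ∏ i ∈ range N, syl (i + 1)

theorem syl_pos (n : ℕ) : 2 ≤ syl n := by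
  induction n with
  | zero => simp [syl]
  | succ n ih =>
    have h1 : 1 ≤ syl n - 1 := by omega
    have h2 : 2 * 1 ≤ syl n * (syl n - 1) := Nat.mul_le_mul ih h1
    simp only [syl]; omega

theorem syl_eq (N : ℕ) : syl (N + 1) = 2 * mm N + 1 := by
  induction N with
  | zero => simp [syl, mm]
  | succ N ih =>
    have h : mm (N + 1) = mm N * syl (N + 1) := by
      simp [mm, prod_range_succ]
    rw [syl, h, ih]
    have : 2 * mm N + 1 - 1 = 2 * mm N := by omega
    rw [this]; ring

theorem mm_pos (N : ℕ) : 1 ≤ mm N := by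
  unfold mm
  exact Nat.one_le_iff_ne_zero.2 (Finset.prod_ne_zero_iff.2 (fun i _ => by
    have := syl_pos (i + 1); omega))

theorem mm_succ (N : ℕ) : mm (N + 1) = mm N * (2 * mm N + 1) := by
  have h : mm (N + 1) = mm N * syl (N + 1) := by
    simp [mm, prod_range_succ]
  rw [h, syl_eq]

theorem syl_dvd_mm {N i : ℕ} (h : i < N) : syl (i + 1) ∣ mm N :=
  dvd_prod_of_mem (fun i => syl (i + 1)) (mem_range.2 h)

theorem sum_mm (N : ℕ) : 2 * (∑ i ∈ range N, mm N / syl (i + 1)) + 1 = mm N := by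
  induction N with
  | zero => simp [mm]
  | succ N ih =>
    rw [sum_range_succ]
    have h1 : ∀ i ∈ range N, mm (N + 1) / syl (i + 1) = (2 * mm N + 1) * (mm N / syl (i + 1)) := by
      intro i hi
      rw [mm_succ]
      obtain ⟨c, hc⟩ := syl_dvd_mm (mem_range.1 hi)
      have hp : 0 < syl (i + 1) := by have := syl_pos (i + 1); omega
      have e1 : mm N / syl (i + 1) = c := by rw [hc]; exact Nat.mul_div_cancel_left c hp
      rw [e1]
      have e2 : mm N * (2 * mm N + 1) = syl (i + 1) * ((2 * mm N + 1) * c) := by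
        rw [hc]; ring
      rw [e2]
      exact Nat.mul_div_cancel_left _ hp
    have h2 : mm (N + 1) / syl (N + 1) = mm N := by
      rw [mm_succ, syl_eq]
      exact Nat.mul_div_cancel _ (by omega)
    rw [sum_congr rfl h1, h2, ← mul_sum, mm_succ]
    have : 2 * ((2 * mm N + 1) * ∑ i ∈ range N, mm N / syl (i + 1) + mm N) + 1 =
        (2 * mm N + 1) * (2 * (∑ i ∈ range N, mm N / syl (i + 1)) + 1) := by ring
    rw [this, ih]; ring

/-- the order `r = m (m + 1) + 1` -/
def rr (N : ℕ) : ℕ := mm N * (mm N + 1) + 1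

theorem rr_eq (N : ℕ) : 4 * rr N = syl (N + 1) ^ 2 + 3 := by
  rw [syl_eq, rr]; ring

/-- the weights of the example of dimension `N + 2` -/
def wt (N : ℕ) : Fin (N + 2) → ℕ := fun i =>
  if (i : ℕ) < N then (mm N + 1) * (mm N / syl (i + 1))
  else if (i : ℕ) = N then mm N
  else (rr N - mm N) / 2

theorem even_rr_sub (N : ℕ) : 2 * ((rr N - mm N) / 2) + mm N = rr N := by
  have hle : mm N ≤ rr N := by
    unfold rr; nlinarith [Nat.zero_le (mm N)]
  have hodd : mm N % 2 = 1 := by have := sum_mm N; omega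
  have h2 : rr N % 2 = 1 := by
    unfold rr
    have : (mm N * (mm N + 1)) % 2 = 0 := Nat.even_iff.1 (Nat.even_mul_succ_self (mm N))
    omega
  omega

theorem sum_wt_fun {M : Type*} [AddCommMonoid M] (N : ℕ) (f : ℕ → M) :
    ∑ i : Fin (N + 2), f (wt N i) =
      ∑ i ∈ range N, f ((mm N + 1) * (mm N / syl (i + 1))) + f (mm N) + f ((rr N - mm N) / 2) := by
  rw [Fin.sum_univ_castSucc, Fin.sum_univ_castSucc, Finset.sum_range]
  congr 1
  · congr 1
    · refine sum_congr rfl fun i _ => ?_
      simp [wt]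
    · simp [wt]
  · simp [wt]

theorem sum_wt (N : ℕ) : ∑ i : Fin (N + 2), wt N i + 1 = rr N := by
  have h := sum_wt_fun N (fun x => x)
  rw [h, ← mul_sum]
  have h1 := sum_mm N
  have h2 := even_rr_sub N
  have h3 : rr N = mm N * (mm N + 1) + 1 := rfl
  set S := ∑ i ∈ range N, mm N / syl (i + 1)
  set A := (rr N - mm N) / 2
  have h4 : 2 * ((mm N + 1) * S) = (mm N + 1) * mm N - (mm N + 1) := by
    have : (mm N + 1) * mm N = 2 * ((mm N + 1) * S) + (mm N + 1) := by
      conv_lhs => rw [← h1]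
      rw [h1]
      have : (mm N + 1) * mm N = (mm N + 1) * (2 * S + 1) := by rw [h1]
      rw [this]; ring
    omega
  have h5 : (mm N + 1) * mm N = 2 * ((mm N + 1) * S) + (mm N + 1) := by
    have : (mm N + 1) * mm N = (mm N + 1) * (2 * S + 1) := by rw [h1]
    rw [this]; ring
  have h6 : mm N * (mm N + 1) = (mm N + 1) * mm N := by ring
  omega

/-- the residues of multiples of `(r - 1) / d` -/
theorem res_mul {r d a k : ℕ} (hd : d * a + 1 = r) (hdpos : 0 < d) (hk0 : 1 ≤ k) (hkr : k < r) :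
    r ≤ d * (k * a % r) + k := by
  set ρ := (k - 1) % d + 1 with hρ
  set Q := (k - 1) / d with hQ
  have hk : k = d * Q + ρ := by
    have h0 := Nat.div_add_mod (k - 1) d
    rw [← hQ] at h0
    omega
  have hρd : ρ ≤ d := by have := Nat.mod_lt (k - 1) hdpos; omega
  -- `d * (k a) + k = k r`
  have e1 : d * (k * a) + k = k * r := by rw [← hd]; ring
  have e2 : d * (k * a) + k = d * (Q * r) + ρ * r := by
    rw [e1]
    conv_lhs => rw [hk]
    ring
  have hQle : Q * r ≤ k * a := by
    by_contra hlt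
    push Not at hlt
    have h3 : d * (k * a) + d ≤ d * (Q * r) := by
      have : k * a + 1 ≤ Q * r := hlt
      calc d * (k * a) + d = d * (k * a + 1) := by ring
        _ ≤ d * (Q * r) := Nat.mul_le_mul_left d this
    have h4 : 1 * r ≤ ρ * r := Nat.mul_le_mul_right r (by omega)
    omega
  obtain ⟨c, hc⟩ := Nat.exists_eq_add_of_le hQle
  have e3 : d * c + k = ρ * r := by
    have : d * (Q * r + c) + k = d * (Q * r) + ρ * r := by rw [← hc]; exact e2
    have h5 : d * (Q * r + c) = d * (Q * r) + d * c := by ring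
    omega
  have hcr : c < r := by
    by_contra hge
    push Not at hge
    have h6 : d * r ≤ d * c := Nat.mul_le_mul_left d hge
    have h7 : ρ * r ≤ d * r := Nat.mul_le_mul_right r hρd
    omega
  have hmod : k * a % r = c := by
    rw [hc, Nat.add_comm, Nat.add_mul_mod_self_right]
    exact Nat.mod_eq_of_lt hcr
  rw [hmod, e3]
  calc r = 1 * r := by ring
    _ ≤ ρ * r := Nat.mul_le_mul_right r (by omega)

/-- the middle weights -/
theorem mid_bound (N i k : ℕ) (hi : i < N) (hk0 : 1 ≤ k) (hkr : k < rr N) :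
    (mm N / syl (i + 1)) * (mm N + 1) * (rr N - k) ≤
      mm N * (mm N + 1) * (k * ((mm N + 1) * (mm N / syl (i + 1))) % rr N) := by
  have hp : 0 < syl (i + 1) := by have := syl_pos (i + 1); omega
  obtain ⟨c, hc⟩ := syl_dvd_mm hi
  have e1 : mm N / syl (i + 1) = c := by rw [hc]; exact Nat.mul_div_cancel_left c hp
  rw [e1]
  have hd : syl (i + 1) * ((mm N + 1) * c) + 1 = rr N := by
    unfold rr
    have : mm N * (mm N + 1) = syl (i + 1) * ((mm N + 1) * c) := by
      conv_lhs => rw [hc]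
      rw [hc]; ring
    omega
  have h := res_mul hd hp hk0 hkr
  have h2 : rr N - k ≤ syl (i + 1) * (k * ((mm N + 1) * c) % rr N) := by omega
  set F := k * ((mm N + 1) * c) % rr N
  calc c * (mm N + 1) * (rr N - k) ≤ c * (mm N + 1) * (syl (i + 1) * F) :=
        Nat.mul_le_mul_left _ h2
    _ = (syl (i + 1) * c) * (mm N + 1) * F := by ring
    _ = mm N * (mm N + 1) * F := by rw [← hc]

theorem last_bound (N k : ℕ) (hk0 : 1 ≤ k) (hkr : k < rr N) :
    mm N * (rr N - k) ≤ mm N * (mm N + 1) * (k * mm N % rr N) := by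
  have hd : (mm N + 1) * mm N + 1 = rr N := by unfold rr; ring
  have h := res_mul hd (by omega) hk0 hkr
  have h2 : rr N - k ≤ (mm N + 1) * (k * mm N % rr N) := by omega
  calc mm N * (rr N - k) ≤ mm N * ((mm N + 1) * (k * mm N % rr N)) := Nat.mul_le_mul_left _ h2
    _ = _ := by ring

/-- `2 F_1 + F_n ≥ r` -/
theorem first_bound (N k : ℕ) (hk0 : 1 ≤ k) (hkr : k < rr N) :
    rr N ≤ 2 * (k * ((rr N - mm N) / 2) % rr N) + k * mm N % rr N := by
  have hrpos : 0 < rr N := by unfold rr; omega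
  have h2 := even_rr_sub N
  set A := (rr N - mm N) / 2
  have hcop : Nat.Coprime (mm N) (rr N) := by
    unfold rr
    rw [Nat.coprime_mul_left_add_right]
    exact Nat.coprime_one_right _
  have hdvd : rr N ∣ 2 * (k * A % rr N) + k * mm N % rr N := by
    have e1 : (2 * (k * A % rr N) + k * mm N % rr N) ≡ 2 * (k * A) + k * mm N [MOD rr N] :=
      Nat.ModEq.add (Nat.ModEq.mul_left 2 (Nat.mod_modEq _ _)) (Nat.mod_modEq _ _)
    have e2 : 2 * (k * A) + k * mm N = rr N * k := by
      calc 2 * (k * A) + k * mm N = k * (2 * A + mm N) := by ring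
        _ = rr N * k := by rw [h2]; ring
    rw [e2] at e1
    exact (Nat.modEq_zero_iff_dvd.1 (e1.trans (Nat.modEq_zero_iff_dvd.2 (dvd_mul_right _ _))))
  have hpos : 0 < k * mm N % rr N := by
    rw [Nat.pos_iff_ne_zero]
    intro h0
    have h3 : rr N ∣ k * mm N := Nat.dvd_of_mod_eq_zero h0
    have h4 : rr N ∣ k := hcop.symm.dvd_of_dvd_mul_right h3
    exact absurd (Nat.le_of_dvd (by omega) h4) (by omega)
  exact Nat.le_of_dvd (by omega) hdvd

/-- **the key inequality**: all multiples `k v`, `2 ≤ k < r`, have height `≥ 2 - k / r` -/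
theorem key (N k : ℕ) (hk : 2 ≤ k) (hkr : k < rr N) :
    2 * rr N ≤ k + ∑ i : Fin (N + 2), k * wt N i % rr N := by
  have hrpos : 0 < rr N := by unfold rr; omega
  have hsum := sum_wt_fun N (fun x => k * x % rr N)
  -- divisibility
  have hdvd : rr N ∣ k + ∑ i : Fin (N + 2), k * wt N i % rr N := by
    have e1 : (k + ∑ i : Fin (N + 2), k * wt N i % rr N) ≡ k + ∑ i : Fin (N + 2), k * wt N i
        [MOD rr N] := by
      refine Nat.ModEq.add_left k ?_
      unfold Nat.ModEq
      rw [Finset.sum_nat_mod, Finset.sum_nat_mod (f := fun i => k * wt N i)]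
      simp
    have e2 : k + ∑ i : Fin (N + 2), k * wt N i = rr N * k := by
      rw [← mul_sum, ← sum_wt N]; ring
    rw [e2] at e1
    exact (Nat.modEq_zero_iff_dvd.1 (e1.trans (Nat.modEq_zero_iff_dvd.2 (dvd_mul_right _ _))))
  have hgt : rr N < k + ∑ i : Fin (N + 2), k * wt N i % rr N := by
    rw [hsum]
    have hmid : (∑ i ∈ range N, (mm N / syl (i + 1))) * ((mm N + 1) * (rr N - k)) ≤
        mm N * (mm N + 1) *
          ∑ i ∈ range N, (k * ((mm N + 1) * (mm N / syl (i + 1))) % rr N) := by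
      rw [sum_mul, mul_sum]
      refine sum_le_sum fun i hi => ?_
      have := mid_bound N i k (mem_range.1 hi) (by omega) hkr
      calc _ = (mm N / syl (i + 1)) * (mm N + 1) * (rr N - k) := by ring
        _ ≤ _ := this
    have hlast := last_bound N k (by omega) hkr
    have hfirst := first_bound N k (by omega) hkr
    have h1 := sum_mm N
    have hr : rr N = mm N * (mm N + 1) + 1 := rfl
    set Smid := ∑ i ∈ range N, (k * ((mm N + 1) * (mm N / syl (i + 1))) % rr N)
    set T := ∑ i ∈ range N, mm N / syl (i + 1)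
    set F := k * mm N % rr N
    set E := k * ((rr N - mm N) / 2) % rr N
    set M := mm N
    obtain ⟨u, hu⟩ := Nat.exists_eq_add_of_le (le_of_lt hkr)
    have hu' : rr N - k = u := by omega
    rw [hu'] at hmid hlast
    by_contra hcon
    push Not at hcon
    -- `2 M (M+1) (k + Smid + F + E) ≤ 2 M (M+1) r`
    have hMM : (M * (M + 1)) * (2 * (k + (Smid + F + E))) ≤ (M * (M + 1)) * (2 * rr N) :=
      Nat.mul_le_mul_left _ (Nat.mul_le_mul_left 2 hcon)
    have hE : (M * (M + 1)) * rr N ≤ (M * (M + 1)) * (2 * E + F) := Nat.mul_le_mul_left _ hfirst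
    have hTM : 2 * (T * ((M + 1) * u)) + (M + 1) * u = M * ((M + 1) * u) := by
      calc 2 * (T * ((M + 1) * u)) + (M + 1) * u = (2 * T + 1) * ((M + 1) * u) := by ring
        _ = M * ((M + 1) * u) := by rw [h1]
    have hru : rr N = k + u := hu
    have hk2 : (k + u) * 1 ≤ (k + u) * (k - 1) := Nat.mul_le_mul_left _ (by omega)
    obtain ⟨k', rfl⟩ : ∃ k', k = k' + 2 := ⟨k - 2, by omega⟩
    nlinarith
  obtain ⟨c, hc⟩ := hdvd
  rw [hc] at hgt ⊢
  have : 1 < c := by
    by_contra h
    push Not at h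
    have := Nat.mul_le_mul_left (rr N) h
    omega
  calc 2 * rr N = rr N * 2 := by ring
    _ ≤ rr N * c := Nat.mul_le_mul_left _ this

theorem wt_coprime (N : ℕ) (i : Fin (N + 2)) : Nat.Coprime (wt N i) (rr N) := by
  have h2 := even_rr_sub N
  unfold wt
  split_ifs with h h'
  · have hp : 0 < syl (i + 1) := by have := syl_pos (i + 1); omega
    obtain ⟨c, hc⟩ := syl_dvd_mm h
    have e1 : mm N / syl (i + 1) = c := by rw [hc]; exact Nat.mul_div_cancel_left c hp
    rw [e1]
    have hd : rr N = (mm N + 1) * c * syl (i + 1) + 1 := by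
      unfold rr
      have : mm N * (mm N + 1) = (mm N + 1) * c * syl (i + 1) := by
        conv_lhs => rw [hc]
        rw [hc]; ring
      omega
    rw [hd, Nat.coprime_mul_left_add_right]
    exact Nat.coprime_one_right _
  · unfold rr
    rw [Nat.coprime_mul_left_add_right]
    exact Nat.coprime_one_right _
  · set A := (rr N - mm N) / 2
    have hcop : Nat.Coprime (mm N) (rr N) := by
      unfold rr
      rw [Nat.coprime_mul_left_add_right]
      exact Nat.coprime_one_right _
    -- `gcd (A, r)` divides `m`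
    have hg : Nat.gcd A (rr N) ∣ mm N := by
      have h3 : Nat.gcd A (rr N) ∣ 2 * A := (Nat.gcd_dvd_left _ _).mul_left 2
      have h4 : Nat.gcd A (rr N) ∣ rr N := Nat.gcd_dvd_right _ _
      rw [← h2] at h4
      exact (Nat.dvd_add_right h3).1 (by rw [h2] at h4 ⊢; exact h4)
    have : Nat.gcd A (rr N) ∣ Nat.gcd (mm N) (rr N) := Nat.dvd_gcd hg (Nat.gcd_dvd_right _ _)
    rw [hcop] at this
    exact Nat.dvd_one.1 this

end Pool.Agent.Lib_helper15.MLD
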